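import Mathlib
import Pool.Agent.Q25.PLP.Stm

/-!
# Job PLP-GIB: the fixed point
-/

set_option autoImplicit false
set_option linter.unusedSectionVars false

open Finset Filter Topology Pool.Agent.Q25.PLP

namespace Pool.Agent.Q51.PLP

variable {P : Type} [Fintype P] [DecidableEq P]

/-- the function to be minimised -/
noncomputable def Psi (L : Finset (Finset P)) (ε : ℝ) (u : P → ℝ) : ℝ :=
  ∑ l ∈ L, Real.log (∑ y ∈ l, Real.exp (u y)) + ε / 2 * ∑ x, (u x) ^ 2

theorem Psi_cont (L : Finset (Finset P)) (hL : ∀ l ∈ L, l.Nonempty) (ε : ℝ) :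
    Continuous (Psi L ε) := by
  unfold Psi
  refine Continuous.add (continuous_finsetSum _ fun l hl => ?_)
    (continuous_const.mul (continuous_finsetSum _ fun x _ => (continuous_apply x).pow 2))
  refine Continuous.log (continuous_finsetSum _ fun y _ =>
    Real.continuous_exp.comp (continuous_apply y)) fun u => ?_
  exact (Finset.sum_pos (fun y _ => Real.exp_pos _) (hL l hl)).ne'

theorem Psi_lower (L : Finset (Finset P)) (hL : ∀ l ∈ L, l.Nonempty) (ε : ℝ) (hε : 0 < ε)
    (u : P → ℝ) : ε / 2 * ‖u‖ ^ 2 - L.card * ‖u‖ ≤ Psi L ε u := by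
  have h1 : -(L.card * ‖u‖) ≤ ∑ l ∈ L, Real.log (∑ y ∈ l, Real.exp (u y)) := by
    have h2 : ∑ _l ∈ L, (-‖u‖) ≤ ∑ l ∈ L, Real.log (∑ y ∈ l, Real.exp (u y)) := by
      refine Finset.sum_le_sum fun l hl => ?_
      obtain ⟨y0, hy0⟩ := hL l hl
      have h3 : Real.exp (u y0) ≤ ∑ y ∈ l, Real.exp (u y) :=
        Finset.single_le_sum (f := fun y => Real.exp (u y)) (fun y _ => (Real.exp_pos _).le) hy0
      have h4 : u y0 ≤ Real.log (∑ y ∈ l, Real.exp (u y)) := by
        rw [Real.le_log_iff_exp_le (lt_of_lt_of_le (Real.exp_pos _) h3)]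
        exact h3
      have h5 : |u y0| ≤ ‖u‖ := by
        rw [← Real.norm_eq_abs]
        exact norm_le_pi_norm u y0
      have h6 := neg_abs_le (u y0)
      linarith
    rw [Finset.sum_const, nsmul_eq_mul] at h2
    linarith
  have h2 : ‖u‖ ^ 2 ≤ ∑ x, (u x) ^ 2 := by
    have h3 : ‖u‖ ≤ Real.sqrt (∑ x, (u x) ^ 2) := by
      refine (pi_norm_le_iff_of_nonneg (Real.sqrt_nonneg _)).2 fun x => ?_
      rw [Real.norm_eq_abs, ← Real.sqrt_sq_eq_abs]
      exact Real.sqrt_le_sqrt (Finset.single_le_sum (f := fun x => (u x) ^ 2)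
        (fun x _ => sq_nonneg _) (Finset.mem_univ x))
    calc ‖u‖ ^ 2 ≤ (Real.sqrt (∑ x, (u x) ^ 2)) ^ 2 := pow_le_pow_left₀ (norm_nonneg _) h3 2
      _ = ∑ x, (u x) ^ 2 := Real.sq_sqrt (Finset.sum_nonneg fun x _ => sq_nonneg _)
  unfold Psi
  nlinarith [mul_le_mul_of_nonneg_left h2 (half_pos hε).le]

theorem Psi_min (L : Finset (Finset P)) (hL : ∀ l ∈ L, l.Nonempty) (ε : ℝ) (hε : 0 < ε) :
    ∃ u : P → ℝ, ∀ v, Psi L ε u ≤ Psi L ε v := by
  refine (Psi_cont L hL ε).exists_forall_le ?_
  have h1 : Tendsto (fun r : ℝ => ε / 2 * r ^ 2 - L.card * r) atTop atTop := by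
    have h2 : (fun r : ℝ => ε / 2 * r ^ 2 - L.card * r) = fun r => r * (ε / 2 * r - L.card) := by
      funext r
      ring
    rw [h2]
    have h3 : Tendsto (fun r : ℝ => ε / 2 * r + (-(L.card : ℝ))) atTop atTop :=
      tendsto_atTop_add_const_right _ (-(L.card : ℝ))
        (Tendsto.const_mul_atTop (half_pos hε) tendsto_id)
    exact tendsto_id.atTop_mul_atTop₀ h3
  exact tendsto_atTop_mono (Psi_lower L hL ε hε) (h1.comp tendsto_norm_cocompact_atTop)

theorem t_GIB : S_GIB := by
  intro P _ _ L hL ε hε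
  obtain ⟨u, hu⟩ := Psi_min L hL ε hε
  refine ⟨u, fun x => ?_⟩
  have hupd : ∀ y : P, HasDerivAt (fun t : ℝ => Function.update u x t y) (if y = x then 1 else 0)
      (u x) := by
    intro y
    by_cases h : y = x
    · subst h
      simp only [Function.update_self, if_true]
      exact hasDerivAt_id _
    · simp only [Function.update_of_ne h, h, if_false]
      exact hasDerivAt_const _ _
  have hself : Function.update u x (u x) = u := Function.update_eq_self x u
  have h1 : ∀ l ∈ L, HasDerivAt (fun t : ℝ => Real.log (∑ y ∈ l, Real.exp (Function.update u x t y)))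
      (hc (fun y => Real.exp (u y)) l x) (u x) := by
    intro l hl
    have h2 : HasDerivAt (fun t : ℝ => ∑ y ∈ l, Real.exp (Function.update u x t y))
        (∑ y ∈ l, Real.exp (Function.update u x (u x) y) * (if y = x then 1 else 0)) (u x) := by
      refine HasDerivAt.fun_sum fun y _ => ?_
      exact (hupd y).exp
    have h3 : (∑ y ∈ l, Real.exp (Function.update u x (u x) y)) ≠ 0 :=
      (Finset.sum_pos (fun y _ => Real.exp_pos _) (hL l hl)).ne'
    have h4 := h2.log h3
    convert h4 using 1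
    rw [hself]
    unfold hc
    by_cases hx : x ∈ l
    · rw [if_pos hx]
      simp [hx]
    · rw [if_neg hx]
      simp [hx]
  have h5 : HasDerivAt (fun t : ℝ => Psi L ε (Function.update u x t))
      (∑ l ∈ L, hc (fun y => Real.exp (u y)) l x + ε / 2 * ∑ y, (2 * Function.update u x (u x) y *
        (if y = x then 1 else 0))) (u x) := by
    unfold Psi
    refine HasDerivAt.add (HasDerivAt.fun_sum h1) (HasDerivAt.const_mul _ (HasDerivAt.fun_sum
      fun y _ => ?_))
    have := (hupd y).fun_pow 2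
    simpa using this
  have h6 : IsLocalMin (fun t : ℝ => Psi L ε (Function.update u x t)) (u x) := by
    refine Filter.Eventually.of_forall fun t => ?_
    show Psi L ε (Function.update u x (u x)) ≤ Psi L ε (Function.update u x t)
    rw [hself]
    exact hu _
  have h7 := h6.hasDerivAt_eq_zero h5
  rw [hself] at h7
  have h8 : ∑ y, (2 * u y * (if y = x then (1 : ℝ) else 0)) = 2 * u x := by
    simp
  rw [h8] at h7
  unfold gg
  linarith

end Pool.Agent.Q51.PLP
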