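import Mathlib
import Pool.Agent.Q25.PLP.Stm

/-!
# Job PLP-LIM: limit of the fixed points
-/

set_option autoImplicit false
set_option linter.unusedSectionVars false

open Finset Filter Topology Pool.Agent.Q25.PLP

namespace Pool.Agent.Q51.PLP

variable {P : Type} [Fintype P] [DecidableEq P]

theorem hc_nonneg (h : P → ℝ) (hh : ∀ x, 0 < h x) (l : Finset P) (x : P) : 0 ≤ hc h l x := by
  unfold hc
  split_ifs
  · exact div_nonneg (hh x).le (Finset.sum_nonneg fun y _ => (hh y).le)
  · exact le_rfl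

theorem hc_sum (h : P → ℝ) (hh : ∀ x, 0 < h x) (l : Finset P) (hl : l.Nonempty) :
    ∑ x ∈ l, hc h l x = 1 := by
  have h1 : ∑ x ∈ l, hc h l x = ∑ x ∈ l, h x / ∑ y ∈ l, h y :=
    Finset.sum_congr rfl fun x hx => by
      unfold hc
      rw [if_pos hx]
  rw [h1, ← Finset.sum_div]
  exact div_self (Finset.sum_pos (fun y _ => hh y) hl).ne'

theorem hc_le (h : P → ℝ) (hh : ∀ x, 0 < h x) (l : Finset P) (x y : P) (hy : y ∈ l) :
    hc h l x ≤ h x / h y := by
  unfold hc
  split_ifs with hx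
  · refine div_le_div_of_nonneg_left (hh x).le (hh y) ?_
    exact Finset.single_le_sum (f := h) (fun z _ => (hh z).le) hy
  · exact div_nonneg (hh x).le (hh y).le

theorem hc_le_one (h : P → ℝ) (hh : ∀ x, 0 < h x) (l : Finset P) (x : P) : hc h l x ≤ 1 := by
  by_cases hx : x ∈ l
  · have h1 := hc_le h hh l x x hx
    rwa [div_self (hh x).ne'] at h1
  · unfold hc
    rw [if_neg hx]
    exact zero_le_one

theorem t_LIM (hG : S_GIB) : S_LIM := by
  intro P _ _ L hL K hK hhK
  have h0 : ∀ n : ℕ, (0 : ℝ) < 1 / ((n : ℝ) + 1) := fun n => by positivity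
  choose u hu using fun n : ℕ => hG P L hL (1 / ((n : ℝ) + 1)) (h0 n)
  let h : ℕ → P → ℝ := fun n y => Real.exp (u n y)
  have hh : ∀ n x, 0 < h n x := fun n x => Real.exp_pos _
  let c : ℕ → Finset P → P → ℝ := fun n => hc (h n)
  have hcomp : IsCompact (Set.pi Set.univ (fun _ : Finset P =>
      Set.pi Set.univ (fun _ : P => Set.Icc (0 : ℝ) 1))) :=
    isCompact_univ_pi fun _ => isCompact_univ_pi fun _ => isCompact_Icc
  have hmem : ∀ n, c n ∈ Set.pi Set.univ (fun _ : Finset P =>
      Set.pi Set.univ (fun _ : P => Set.Icc (0 : ℝ) 1)) := by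
    intro n l _ x _
    exact ⟨hc_nonneg (h n) (hh n) l x, hc_le_one (h n) (hh n) l x⟩
  obtain ⟨c', _, φ, hφ, hlim⟩ := hcomp.tendsto_subseq hmem
  have hlx : ∀ l x, Tendsto (fun n => c (φ n) l x) atTop (𝓝 (c' l x)) := by
    intro l x
    exact ((tendsto_pi_nhds.1 ((tendsto_pi_nhds.1 hlim) l)) x)
  have hg : ∀ x, Tendsto (fun n => gg L (c (φ n)) x) atTop (𝓝 (gg L c' x)) := by
    intro x
    unfold gg
    exact tendsto_finsetSum _ fun l _ => hlx l x
  refine ⟨c', hK.mem_of_tendsto hlim (Eventually.of_forall fun n => hhK _ (hh _)), ?_, ?_⟩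
  · refine ⟨fun l x => ?_, fun l x hx => ?_, fun l hl => ?_⟩
    · exact ge_of_tendsto' (hlx l x) fun n => hc_nonneg _ (hh _) l x
    · refine tendsto_nhds_unique (hlx l x) ?_
      have h1 : ∀ n, c (φ n) l x = 0 := by
        intro n
        show hc (h (φ n)) l x = 0
        unfold hc
        rw [if_neg hx]
      simp only [h1]
      exact tendsto_const_nhds
    · have h1 : Tendsto (fun n => ∑ x ∈ l, c (φ n) l x) atTop (𝓝 (∑ x ∈ l, c' l x)) :=
        tendsto_finsetSum _ fun x _ => hlx l x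
      have h2 : ∀ n, ∑ x ∈ l, c (φ n) l x = 1 := fun n => hc_sum _ (hh _) l (hL l hl)
      simp only [h2] at h1
      exact tendsto_nhds_unique h1 tendsto_const_nhds |>.symm ▸ rfl
  · intro l hl x hx hne y hy
    by_contra hlt
    push Not at hlt
    apply hne
    obtain ⟨δ, hδ⟩ : ∃ δ, δ = (gg L c' x - gg L c' y) / 2 := ⟨_, rfl⟩
    have hδ0 : 0 < δ := by
      rw [hδ]
      linarith
    have h1 : Tendsto (fun n => gg L (c (φ n)) x - gg L (c (φ n)) y) atTop
        (𝓝 (gg L c' x - gg L c' y)) := (hg x).sub (hg y)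
    have h2 : ∀ᶠ n in atTop, δ < gg L (c (φ n)) x - gg L (c (φ n)) y := by
      refine h1.eventually_const_lt ?_
      linarith
    have h3 : ∀ᶠ n in atTop, c (φ n) l x ≤ Real.exp (-(δ * ((φ n : ℝ) + 1))) := by
      filter_upwards [h2] with n hn
      have h4 : c (φ n) l x ≤ h (φ n) x / h (φ n) y := hc_le _ (hh _) l x y hy
      refine h4.trans ?_
      show Real.exp (u (φ n) x) / Real.exp (u (φ n) y) ≤ _
      rw [← Real.exp_sub]
      refine Real.exp_le_exp.2 ?_
      have h5 := hu (φ n) x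
      have h6 := hu (φ n) y
      have h7 : (0 : ℝ) < (φ n : ℝ) + 1 := by positivity
      have h8 : gg L (c (φ n)) x = -(1 / ((φ n : ℝ) + 1) * u (φ n) x) := by
        have : gg L (hc (fun y => Real.exp (u (φ n) y))) x = gg L (c (φ n)) x := rfl
        linarith
      have h9 : gg L (c (φ n)) y = -(1 / ((φ n : ℝ) + 1) * u (φ n) y) := by
        have : gg L (hc (fun y => Real.exp (u (φ n) y))) y = gg L (c (φ n)) y := rfl
        linarith
      have h10 : gg L (c (φ n)) x - gg L (c (φ n)) y =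
          -((u (φ n) x - u (φ n) y) / ((φ n : ℝ) + 1)) := by
        rw [h8, h9]
        field_simp
        ring
      rw [h10] at hn
      have h11 : δ * ((φ n : ℝ) + 1) < -(u (φ n) x - u (φ n) y) := by
        have h12 := mul_lt_mul_of_pos_right hn h7
        have h13 : -((u (φ n) x - u (φ n) y) / ((φ n : ℝ) + 1)) * ((φ n : ℝ) + 1) =
            -(u (φ n) x - u (φ n) y) := by
          field_simp
        rwa [h13] at h12
      linarith
    have h4 : Tendsto (fun n => Real.exp (-(δ * ((φ n : ℝ) + 1)))) atTop (𝓝 0) := by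
      refine Real.tendsto_exp_neg_atTop_nhds_zero.comp ?_
      refine Tendsto.const_mul_atTop hδ0 ?_
      refine tendsto_atTop_add_const_right _ 1 ?_
      exact tendsto_natCast_atTop_atTop.comp hφ.tendsto_atTop
    have h5 : c' l x ≤ 0 := le_of_tendsto_of_tendsto (hlx l x) h4 h3
    have h6 : 0 ≤ c' l x := ge_of_tendsto' (hlx l x) fun n => hc_nonneg _ (hh _) l x
    exact le_antisymm h5 h6

end Pool.Agent.Q51.PLP
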